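import Mathlib
import Pool.Agent.W670.ML.Defs

set_option autoImplicit false

/-!
# Project ML, part DI: discriminants in towers
-/

namespace Pool.Agent.W782.ML

open NumberField Pool.Agent.W670.ML

theorem di1 (K L : Type) [Field K] [NumberField K] [Field L] [NumberField L]
    [Algebra K L] : (discr L).natAbs = relDisc K L * (discr K).natAbs ^ Module.finrank K L :=
  NumberField.natAbs_discr_eq_absNorm_differentIdeal_mul_natAbs_discr_pow K (𝓞 K) L (𝓞 L)

theorem di : Pool.Agent.W670.ML.S_DI := by
  refine ⟨fun K L _ _ _ _ _ => di1 K L, fun L _ _ _ => ?_, fun K L _ _ _ _ _ => ?_⟩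
  · have h := di1 ℚ L
    rw [Rat.numberField_discr] at h
    simpa using h
  · have h := di1 K L
    rw [Nat.one_le_iff_ne_zero]
    intro h0
    rw [h0, zero_mul] at h
    exact NumberField.discr_ne_zero L (Int.natAbs_eq_zero.mp h)

end Pool.Agent.W782.ML
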